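import Pool.Agent.H37.CNQ.Stmts

/-!
# Row ALL of the board `cnq`: `N_G c` is an integer for every conductor `c`
-/

set_option autoImplicit false

namespace Pool.CND

theorem all_thm (hPUN : S_PUN) : S_ALL := by
  intro p k G _ _ _ c hp hchar hc
  obtain ⟨m, hm⟩ := hPUN p k G c hp hchar hc
  refine ⟨c.num * m, ?_⟩
  rw [hm]
  have h1 : (c : ℚ) * c.den = c.num := Rat.mul_den_eq_num c
  push_cast
  linear_combination (m : ℚ) * h1

end Pool.CND
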