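import Pool.Agent.H37.CNQ.Stmts

/-!
# Row QUO of the board `cnq`: conductors of quotients by subgroups of order prime to `p`
-/

set_option autoImplicit false

namespace Pool.CND

theorem quo_thm (hQU1 : S_QU1) (hQU2 : S_QU2) : S_QUO := by
  intro p k G _ _ _ _ C _ c hp hchar hpC hc hc0
  obtain ⟨L, _, _, ρ, t, hcov, P, hPt, hcond⟩ := hc
  obtain ⟨E, ρ', t', hE, ht', hρ', hcov'⟩ := hQU1 k L G ρ t C hcov
  obtain ⟨Q, e, he, hQ, hcondQ⟩ := hQU2 p k L G ρ t C P c E ρ' hp hchar hpC hcov hE hρ' hcond hc0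
  refine ⟨E, inferInstance, inferInstance, ρ', t', hcov', Q, ?_, hcondQ⟩
  have ht0 : t' ≠ 0 := by
    intro h
    apply hcov'.trans
    rw [h]
    exact isAlgebraic_zero
  have h1 := hQ t' ht0
  rw [ht'] at h1
  have h2 : (1 : ℤ) ≤ e := by exact_mod_cast he
  by_contra h3
  push Not at h3
  have h4 : (0 : ℤ) ≤ (e : ℤ) * Q.ord t' := mul_nonneg (by linarith) h3
  linarith

end Pool.CND
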